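import Pool.Agent.P.MP_d8da86_an.Main

open Pool.Agent.P.MP_d8da86_an

namespace Pool.Agent.Results.MP_d8da86_an.Complemented

/-- Every lattice attainable by a normal operator is complemented; moreover every element has a
complement that corresponds to a reducing subspace. -/
theorem result {H : Type*} [NormedAddCommGroup H] [InnerProductSpace ℂ H] [CompleteSpace H]
    (A : H →L[ℂ] H) (hA : IsStarNormal A) {L : Type*} [Lattice L] [BoundedOrder L]
    (e : L ≃o Lat A) (a : L) :
    ∃ b : L, a ⊓ b = ⊥ ∧ a ⊔ b = ⊤ ∧ ((e b : Submodule ℂ H))ᗮ ∈ Lat A := by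
  obtain ⟨N, hN, h1, h2, h3⟩ := exists_reducing_compl hA (e a).2
  obtain ⟨b, rfl⟩ := exists_val e hN
  exact ⟨b, val_inj e (by rw [val_inf, h2, val_bot]), val_inj e (by rw [val_sup, h3, val_top]), h1⟩

end Pool.Agent.Results.MP_d8da86_an.Complemented
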