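import Pool.Agent.P.MP_d8da86_an.Main

open Pool.Agent.P.MP_d8da86_an

namespace Pool.Agent.Results.MP_d8da86_an.ModularIff

/-- The invariant subspace lattice of a normal operator is modular exactly when the operator is
reductive and its commutant is finite, and then it is the lattice of a self-adjoint operator
with finite commutant. -/
theorem result {H : Type*} [NormedAddCommGroup H] [InnerProductSpace ℂ H] [CompleteSpace H]
    (A : H →L[ℂ] H) (hA : IsStarNormal A) {L : Type*} [Lattice L] (e : L ≃o Lat A) :
    List.TFAE [IsModularLattice L,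
      Reductive A ∧ FiniteCommutant A,
      ∃ B : H →L[ℂ] H, IsSelfAdjoint B ∧ FiniteCommutant B ∧ Lat B = Lat A] := by
  tfae_have 1 → 2 := fun h =>
    ⟨reductive_of_modLat hA ((modular_iff e).1 h), finite_of_modLat hA ((modular_iff e).1 h)⟩
  tfae_have 2 → 3 := fun h => by
    obtain ⟨B, h1, h2, h3⟩ := exists_sa_Lat hA h.1
    exact ⟨B, h1, h3 h.2, h2⟩
  tfae_have 3 → 1 := fun ⟨B, h1, h2, h3⟩ => by
    have h4 := modLat_of_finite h1.isStarNormal (reductive_of_selfAdjoint h1) h2
    rw [modular_iff e, ModLat, ← h3]
    exact h4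
  tfae_finish

end Pool.Agent.Results.MP_d8da86_an.ModularIff
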