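import Pool.Agent.P.MP_d8da86_an.Main

open Pool.Agent.P.MP_d8da86_an

namespace Pool.Agent.Results.MP_d8da86_an.SelfAdjointIff

universe u

/-- Among the lattices attainable by a normal operator, those attainable by a self-adjoint
operator are exactly the sectionally complemented ones, the relatively complemented ones, and the
ones carrying an orthomodular orthocomplementation; this happens exactly for reductive `A`. -/
theorem result {H : Type u} [NormedAddCommGroup H] [InnerProductSpace ℂ H] [CompleteSpace H]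
    (A : H →L[ℂ] H) (hA : IsStarNormal A) {L : Type*} [Lattice L] [BoundedOrder L]
    (e : L ≃o Lat A) :
    List.TFAE [∀ a b : L, a ≤ b → ∃ c, a ⊓ c = ⊥ ∧ a ⊔ c = b,
      ∀ a x b : L, a ≤ x → x ≤ b → ∃ y, x ⊓ y = a ∧ x ⊔ y = b,
      ∃ o : L → L, Antitone o ∧ Function.Involutive o ∧ (∀ a, a ⊓ o a = ⊥) ∧
        ∀ a b, a ≤ b → a ⊔ (b ⊓ o a) = b,
      Reductive A,
      ∃ B : H →L[ℂ] H, IsSelfAdjoint B ∧ Lat B = Lat A,
      ∃ (K : Type u) (_ : NormedAddCommGroup K) (_ : InnerProductSpace ℂ K) (_ : CompleteSpace K)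
        (B : K →L[ℂ] K), IsSelfAdjoint B ∧ Nonempty (L ≃o Lat B)] := by
  tfae_have 1 → 4 := fun h => reductive_of_secLat hA (secLat_of e h)
  tfae_have 4 → 5 := fun h => by
    obtain ⟨B, h1, h2, -⟩ := exists_sa_Lat hA h
    exact ⟨B, h1, h2⟩
  tfae_have 5 → 6 := fun ⟨B, h1, h2⟩ => ⟨H, _, _, _, B, h1, ⟨h2 ▸ e⟩⟩
  tfae_have 6 → 3 := fun ⟨K, _, _, _, B, h1, ⟨e'⟩⟩ =>
    exists_ortho e' (reductive_of_selfAdjoint h1)
  tfae_have 3 → 2 := fun ⟨o, h1, h2, h3, h4⟩ => relCompl_of_ortho h1 h2 h3 h4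
  tfae_have 2 → 1 := fun h a b hab => h ⊥ a b bot_le hab
  tfae_finish

end Pool.Agent.Results.MP_d8da86_an.SelfAdjointIff
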