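import Pool.Agent.P.MP_d8da86_an.C.Final2

open Pool.Agent.P.MP_d8da86_an

namespace Pool.Agent.Results.MP_d8da86_an.Structure

universe u

/-- The lattices attainable by a normal operator are the products of a lattice satisfying the
order criterion and at most countably many irreducible attainable lattices which are not
relatively complemented. -/
theorem result {L : Type u} [CompleteLattice L] : CR.Attainable L ↔ Nontrivial L ∧
    ∃ (L₀ : Type u) (_ : CompleteLattice L₀) (J : Set ℕ) (M : J → Type u)
      (_ : ∀ j, CompleteLattice (M j)), CR.Crit L₀ ∧
        (∀ j, CR.Attainable (M j) ∧ CR.Irred (M j) ∧ ¬ CR.RelCompl (M j)) ∧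
          Nonempty (L ≃o L₀ × ∀ j, M j) :=
  CR.structure_main

end Pool.Agent.Results.MP_d8da86_an.Structure
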